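import Pool.Agent.Lib.MP_417c68_gt_P.G.Multi

/-!
# MP_417c68_gt, project P, module G/Exch: split complements in a direct sum

Pure linear algebra.  PROOF.  Choose a subspace `Y ≤ C` which is split, `X ⊓ Y = ⊥`, of maximal
dimension.  If `X ⊔ Y ≠ C` then some `c ∈ C`, `c = π j c`, is not in `X ⊔ Y` (`C` is spanned by such
elements); `Y' = Y ⊔ ℝ c` is split and `X ⊓ Y' = ⊥`, contradiction.
-/

noncomputable section

namespace Pool.Agent.MP417P

open Module

namespace LTS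

variable {E : Type} [AddCommGroup E] [Module ℝ E] [FiniteDimensional ℝ E]

theorem exch {m : ℕ} {π : Fin m → E →ₗ[ℝ] E} (h1 : ∀ x, ∑ j, π j x = x)
    (h2 : ∀ i j x, π i (π j x) = if i = j then π j x else 0) {C X : Submodule ℝ E}
    (hC : Spl π C) (hX : X ≤ C) :
    ∃ Y ≤ C, Spl π Y ∧ X ⊓ Y = ⊥ ∧ X ⊔ Y = C := by
  obtain ⟨Y, ⟨hYC, hYs, hYX⟩, hmax⟩ := (wellFounded_gt (α := Submodule ℝ E)).has_min
    {Y | Y ≤ C ∧ Spl π Y ∧ X ⊓ Y = ⊥}
    ⟨⊥, bot_le, fun j => by rw [Submodule.map_bot], inf_bot_eq X⟩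
  refine ⟨Y, hYC, hYs, hYX, ?_⟩
  by_contra hne
  have hle : X ⊔ Y ≤ C := sup_le hX hYC
  obtain ⟨j, c, hcC, hcj, hc⟩ : ∃ j, ∃ c ∈ C, π j c = c ∧ c ∉ X ⊔ Y := by
    by_contra hcon
    push Not at hcon
    refine hne (le_antisymm hle fun x hx => ?_)
    rw [← h1 x]
    refine Submodule.sum_mem _ fun j _ => ?_
    refine hcon j (π j x) (hC j (Submodule.mem_map_of_mem hx)) ?_
    rw [h2, if_pos rfl]
  refine hmax (Y ⊔ Submodule.span ℝ {c}) ⟨?_, ?_, ?_⟩ ?_
  · refine sup_le hYC ?_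
    rw [Submodule.span_le, Set.singleton_subset_iff]
    exact hcC
  · intro i
    rw [Submodule.map_sup, Submodule.map_span, Set.image_singleton]
    refine sup_le ((hYs i).trans le_sup_left) ?_
    rw [Submodule.span_le, Set.singleton_subset_iff]
    have h3 : π i c = if i = j then c else 0 := by
      have h4 := h2 i j c
      rwa [hcj] at h4
    rw [h3]
    split_ifs
    · exact (le_sup_right : _ ≤ Y ⊔ Submodule.span ℝ {c}) (Submodule.mem_span_singleton_self c)
    · exact Submodule.zero_mem _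
  · rw [eq_bot_iff]
    rintro x ⟨hx1, hx2⟩
    obtain ⟨y, hy, z, hz, rfl⟩ := Submodule.mem_sup.1 hx2
    obtain ⟨t, rfl⟩ := Submodule.mem_span_singleton.1 hz
    have ht : t = 0 := by
      by_contra ht
      apply hc
      have h3 : c = t⁻¹ • ((y + t • c) - y) := by
        rw [add_sub_cancel_left, smul_smul, inv_mul_cancel₀ ht, one_smul]
      rw [h3]
      exact Submodule.smul_mem _ _ (Submodule.sub_mem _
        ((le_sup_left : X ≤ X ⊔ Y) hx1) ((le_sup_right : Y ≤ X ⊔ Y) hy))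
    rw [ht, zero_smul, add_zero] at hx1 ⊢
    have h4 : y ∈ X ⊓ Y := ⟨hx1, hy⟩
    rwa [hYX] at h4
  · refine lt_of_le_of_ne le_sup_left fun h3 => hc ?_
    have h4 : c ∈ Y := by
      rw [h3]
      exact (le_sup_right : _ ≤ Y ⊔ Submodule.span ℝ {c}) (Submodule.mem_span_singleton_self c)
    exact (le_sup_right : Y ≤ X ⊔ Y) h4

end LTS

end Pool.Agent.MP417P
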