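import Pool.Agent.Lib.MP_417c68_gt_P.G.Exch

/-!
# MP_417c68_gt, project P, module G/Final: Theorem P for Lie triple systems

PROOFS (text, section 8; with the remark of helper1: any split complement in the centre will do).
Notation `c = cen ⊤`, `Es = perp c`.
* `ss_cp`: `V⁺ = ss V ⊔ c` and `ss W` are complementary for `K`.  `disj`: `x = k y`, `x = v' + z`,
  `y ∈ ss W`;
  `ss V`, `k (ss W)` are contained in `Es` (`ctl_perp`, `ss_cen`, `im_perp`, `im_cen`, `im_top`), so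
  `z ∈ Es ∩ c = 0`, `x = v' ∈ V`, `y ∈ W`, so `x = 0` by `h`.  `dim`: `finrank_ss` for `V`, `W`,
  the second
  statement of `z2` (for `Inn ≤ K`) and `ss V ⊓ c = ⊥`.
* `final`: `V⁺` is a subtriple (`sub_sup`); `multi` for `(V⁺, ss W)` gives `W'`, split, `W' ≤ Es`
  (`ctl_perp`).  Let `p` be the orthogonal projection onto `c` (`exists_proj`), `X = (cen V).map
  p`; `c` is
  split: `π j c ≤ c` (`π j` is a surjective homomorphism onto the ideal; an element `π j z`, `z ∈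
  c`, commutes
  with `π j E` (`hom`) and with `π i E`).  `exch`: `Y ≤ c` split with `X ⊕ Y = c`.  `W* = W' ⊔ Y`.
  `disj`: `x ∈ V`, `x = k (w' + y)`, `x = v' + Z` (`cen_sup_ss`), `k y = y` (`hfix`):
  `p x = p Z = y` (`v'`, `k w' ∈ Es`), so `p Z ∈ X ∩ Y = 0`, `y = 0`, `Z ∈ Es`, `Z = 0` (`nc_cen`),
  and `x = v' = k w'`,
  `v' ∈ V⁺`, so `x = 0`.  `dim`: `dim X = dim (cen V)` (`nc_cen`), `z2`, `finrank_ss`.
-/

noncomputable section

namespace Pool.Agent.MP417P

open Module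

namespace LTS

variable {E : Type} [NormedAddCommGroup E] [NormedSpace ℝ E] [FiniteDimensional ℝ E]
  {S : LTS E} {K : Subgroup (GLE E)} {V W : Submodule ℝ E} {m : ℕ} {π : Fin m → E →ₗ[ℝ] E}

omit [FiniteDimensional ℝ E] in
private theorem fin_perp_zero {x : E} {C : Submodule ℝ E} (h1 : x ∈ C) (h2 : x ∈ S.perp C) :
    x = 0 := S.ip_zero (h2 x h1)

private theorem fin_kp {k : GLE E} (hk : S.Aut k) {U : Submodule ℝ E} (hU : S.Sub U)
    (hc : S.cen U = ⊥) {y : E} (hy : y ∈ U) : k.1 y ∈ S.perp (S.cen ⊤) := by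
  refine S.ctl_perp (V := im k U) (S.im_sub hk hU) ?_ (mem_im.2 ⟨y, hy, rfl⟩)
  rw [S.im_cen hk, hc, im, Submodule.map_bot]

private theorem fin_sup {A B C : Submodule ℝ E} (hA : A ≤ S.perp C) (hB : B ≤ C) :
    finrank ℝ (A ⊔ B : Submodule ℝ E) = finrank ℝ A + finrank ℝ B := by
  have hinf : A ⊓ B = ⊥ := by
    refine (Submodule.eq_bot_iff _).2 fun x hx => ?_
    exact fin_perp_zero (hB hx.2) (hA hx.1)
  have := Submodule.finrank_sup_add_finrank_inf_eq A B
  rw [hinf, finrank_bot, add_zero] at this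
  exact this

theorem ss_cp (hK : S.Grp K) (hV : S.Sub V) (hW : S.Sub W) (h : Cp K V W) :
    Cp K (S.ss V ⊔ S.cen ⊤) (S.ss W) := by
  have h2 := (z2 S hV hW (h.mono hK.inn)).2
  have hVp : S.ss V ≤ S.perp (S.cen ⊤) := S.ctl_perp (S.ss_sub hV) (S.ss_cen V)
  constructor
  · intro k hk x hx y hy hxy
    obtain ⟨v, hv, z, hz, rfl⟩ := Submodule.mem_sup.1 hx
    have hk' := fin_kp (hK.aut k hk) (S.ss_sub hW) (S.ss_cen W) hy
    have hz' : z ∈ S.perp (S.cen ⊤) := by
      have : z = k.1 y - v := by rw [← hxy]; abel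
      rw [this]
      exact Submodule.sub_mem _ hk' (hVp hv)
    have hz0 := fin_perp_zero hz hz'
    rw [hz0, add_zero] at hxy ⊢
    exact h.disj k hk v hv.1 y hy.1 hxy
  · have e1 := S.finrank_ss V
    have e2 := S.finrank_ss W
    have e3 := fin_sup (S := S) hVp (le_refl (S.cen ⊤))
    have e4 := h.dim
    omega

omit [FiniteDimensional ℝ E] in
theorem DecM.cen_spl (hπ : S.DecM π) : Spl π (S.cen ⊤) := by
  intro j x hx
  obtain ⟨c, hc, rfl⟩ := Submodule.mem_map.1 hx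
  refine mem_cen.2 ⟨trivial, fun y _ => LinearMap.ext fun z => ?_⟩
  have hcy : ∀ y z, S.T c y z = 0 := fun y z => by
    rw [(mem_cen.1 hc).2 y trivial, LinearMap.zero_apply]
  have h1 : ∀ y z, S.T (π j c) (π j y) z = 0 := by
    intro y z
    conv_lhs => rw [← hπ.sum z]
    rw [map_sum]
    refine Finset.sum_eq_zero fun l _ => ?_
    by_cases hl : l = j
    · subst hl
      rw [← hπ.hom l, hcy, map_zero]
    · exact S.com_T (hπ.com j l (Ne.symm hl) c z) (hπ.com j l (Ne.symm hl) y z)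
  conv_lhs => rw [← hπ.sum y]
  rw [map_sum, LinearMap.sum_apply, LinearMap.zero_apply]
  refine Finset.sum_eq_zero fun i _ => ?_
  by_cases hi : i = j
  · subst hi
    exact h1 y z
  · rw [hπ.com j i (Ne.symm hi), LinearMap.zero_apply]

/-- Theorem P -/
theorem final (hπ : S.DecM π) (hK : S.Grp K) (hfix : ∀ k ∈ K, ∀ c ∈ S.cen ⊤, k.1 c = c)
    (hV : S.Sub V) (hW : S.Sub W) (h : Cp K V W) :
    ∃ W' : Submodule ℝ E, S.Sub W' ∧ Spl π W' ∧ Cp K V W' := by
  have hVc : ∀ x ∈ S.ss V, ∀ y ∈ S.cen ⊤, S.T x y = 0 := fun x _ y hy =>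
    S.T_symm ((mem_cen.1 hy).2 x trivial)
  have hV' : S.Sub (S.ss V ⊔ S.cen ⊤) := S.sub_sup (S.ss_sub hV) S.sub_cen hVc
  obtain ⟨W', hW', hc', hcp, hspl⟩ :=
    multi hπ hK hV' (S.ss_sub hW) (S.ss_cen W) (ss_cp hK hV hW h)
  have hWp : W' ≤ S.perp (S.cen ⊤) := S.ctl_perp hW' hc'
  have hVp : S.ss V ≤ S.perp (S.cen ⊤) := S.ctl_perp (S.ss_sub hV) (S.ss_cen V)
  obtain ⟨P, hP1, hP2, -, hP4⟩ := S.exists_proj (S.cen ⊤)
  have hP0 : ∀ u ∈ S.perp (S.cen ⊤), P u = 0 := by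
    intro u hu
    refine fin_perp_zero (S := S) (hP1 u) ?_
    have : P u = u - (u - P u) := by abel
    rw [this]
    exact Submodule.sub_mem _ hu (hP4 u)
  have hPZ : ∀ Z ∈ S.cen V, P Z = 0 → Z = 0 := by
    intro Z hZ h0
    have hn := nc_cen S (h.mono hK.inn)
    have hm : Z ∈ S.cen V ⊓ S.perp (S.cen ⊤) := by
      refine ⟨hZ, ?_⟩
      have := hP4 Z
      rwa [h0, sub_zero] at this
    rw [hn] at hm
    exact (Submodule.mem_bot ℝ).1 hm
  have hX : (S.cen V).map P ≤ S.cen ⊤ := by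
    intro x hx
    obtain ⟨u, -, rfl⟩ := Submodule.mem_map.1 hx
    exact hP1 u
  obtain ⟨Y, hYc, hYs, hXY, hXY'⟩ := exch hπ.sum hπ.orth hπ.cen_spl hX
  have hYT : ∀ y ∈ Y, ∀ x, S.T y x = 0 := fun y hy x => (mem_cen.1 (hYc hy)).2 x trivial
  refine ⟨W' ⊔ Y, ?_, ?_, ?_⟩
  · refine S.sub_sup hW' (fun x hx y _ z _ => ?_) fun x _ y hy => S.T_symm (hYT y hy x)
    rw [hYT x hx y, LinearMap.zero_apply]
    exact Y.zero_mem
  · intro j
    rw [Submodule.map_sup]
    exact sup_le_sup (hspl j) (hYs j)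
  · constructor
    · intro k hk x hx y hy hxy
      obtain ⟨w, hw, y0, hy0, rfl⟩ := Submodule.mem_sup.1 hy
      rw [← S.cen_sup_ss V] at hx
      obtain ⟨Z, hZ, v, hv, rfl⟩ := Submodule.mem_sup.1 hx
      rw [map_add, hfix k hk y0 (hYc hy0)] at hxy
      have hkw := fin_kp (hK.aut k hk) hW' hc' hw
      have hPx := congrArg P hxy
      rw [map_add, map_add, hP0 v (hVp hv), hP0 _ hkw, hP2 y0 (hYc hy0), add_zero, zero_add]
        at hPx
      have hy00 : y0 = 0 := by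
        have hm : y0 ∈ (S.cen V).map P ⊓ Y := ⟨hPx ▸ Submodule.mem_map_of_mem hZ, hy0⟩
        rw [hXY] at hm
        exact (Submodule.mem_bot ℝ).1 hm
      have hZ0 : Z = 0 := hPZ Z hZ (hPx.trans hy00)
      rw [hZ0, zero_add, hy00, add_zero] at hxy
      rw [hZ0, zero_add]
      exact hcp.disj k hk v (Submodule.mem_sup_left hv) w hw hxy
    · have e1 := S.finrank_ss V
      have e2 := hcp.dim
      have e3 := fin_sup (S := S) hVp (le_refl (S.cen ⊤))
      have e4 := fin_sup (S := S) hWp hYc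
      have e5 := Submodule.finrank_sup_add_finrank_inf_eq ((S.cen V).map P) Y
      rw [hXY, hXY', finrank_bot, add_zero] at e5
      have e6 : finrank ℝ ((S.cen V).map P) = finrank ℝ (S.cen V) := by
        rw [← LinearMap.range_domRestrict]
        refine LinearMap.finrank_range_of_inj ((injective_iff_map_eq_zero _).2 fun a ha => ?_)
        exact Subtype.ext (hPZ a.1 a.2 ha)
      omega

end LTS

end Pool.Agent.MP417P
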