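import Pool.Agent.Lib.MP_417c68_gt_P.G.Multi

/-!
# MP_417c68_gt, project P, module G/Kinv: a connected group preserves the ideals

PROOF.  Let `I = range (π j)`, `I' = ss I` (centreless subtriple, `ss_cen`).  The family
`k ↦ im k I'`, `k ∈ K`, satisfies the hypotheses of `conj_family` (`im_sub`, `finrank_im`,
  `im_cen`; closed
graph: `x ∈ im k I' ↔ k⁻¹ x ∈ I'`), so `im k I' = im u I'` with `u ∈ Inn`, and `im u I' = I'` by
  `inn_sub`:
`T x y z ∈ I'` for `z ∈ I'`, all `x y`: `T x y z = T (π j x) (π j y) z` (`com`, `hom`, `com_T`) is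
  in `I`
and in `perp (cen I)`: `cen I` is central in `E` and `T_perp`.  Next `I = cen I ⊔ I'`
  (`cen_sup_ss`), `cen I ≤ cen ⊤`
is fixed pointwise (`hfix`).  So `im k I = I` for all `j`; `k` commutes with the projections.
-/

noncomputable section

namespace Pool.Agent.MP417P

open Module

namespace LTS

variable {E : Type} [NormedAddCommGroup E] [NormedSpace ℝ E] [FiniteDimensional ℝ E]
  {S : LTS E} {K : Subgroup (GLE E)} {m : ℕ} {π : Fin m → E →ₗ[ℝ] E}

omit [FiniteDimensional ℝ E] in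
private theorem kinv_fix (hπ : S.DecM π) {j : Fin m} {z : E}
    (hz : z ∈ LinearMap.range (π j)) : π j z = z := by
  obtain ⟨w, rfl⟩ := hz
  rw [hπ.orth, if_pos rfl]

omit [FiniteDimensional ℝ E] in
private theorem kinv_fix_ne (hπ : S.DecM π) {i j : Fin m} (hij : i ≠ j) {z : E}
    (hz : z ∈ LinearMap.range (π j)) : π i z = 0 := by
  obtain ⟨w, rfl⟩ := hz
  rw [hπ.orth, if_neg hij]

omit [FiniteDimensional ℝ E] in
private theorem kinv_mem (hπ : S.DecM π) {j : Fin m} (x y : E) {z : E}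
    (hz : z ∈ LinearMap.range (π j)) : S.T x y z ∈ LinearMap.range (π j) := by
  have h : S.T x y z = π j (S.T x y z) := by
    conv_lhs => rw [← hπ.sum (S.T x y z)]
    refine Finset.sum_eq_single j (fun i _ hij => ?_) fun h => absurd (Finset.mem_univ j) h
    rw [hπ.hom i, kinv_fix_ne hπ hij hz, map_zero]
  exact ⟨_, h.symm⟩

omit [FiniteDimensional ℝ E] in
private theorem kinv_sub (hπ : S.DecM π) (j : Fin m) : S.Sub (LinearMap.range (π j)) :=
  fun x _ y _ _ hz => kinv_mem hπ x y hz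

omit [FiniteDimensional ℝ E] in
/-- the semisimple part of an ideal is preserved by all `T x y` -/
private theorem kinv_ss (hπ : S.DecM π) {j : Fin m} (x y : E) {z : E}
    (hz : z ∈ S.ss (LinearMap.range (π j))) : S.T x y z ∈ S.ss (LinearMap.range (π j)) := by
  refine ⟨kinv_mem hπ x y hz.1, fun c hc => ?_⟩
  rw [S.ps x y z c, S.T_symm (hc.2 z hz.1), LinearMap.zero_apply, map_zero,
    LinearMap.zero_apply]

omit [FiniteDimensional ℝ E] in
/-- the centre of an ideal is central -/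
private theorem kinv_cen (hπ : S.DecM π) {j : Fin m} {c : E}
    (hc : c ∈ S.cen (LinearMap.range (π j))) : c ∈ S.cen ⊤ := by
  refine ⟨Submodule.mem_top, fun y _ => ?_⟩
  rw [← hπ.sum y, map_sum]
  refine Finset.sum_eq_zero fun i _ => ?_
  by_cases hij : j = i
  · subst hij
    exact hc.2 _ ⟨y, rfl⟩
  · rw [← kinv_fix hπ hc.1]
    exact hπ.com j i hij c y

/-- the graph of the family of the translates of a subspace is closed -/
private theorem kinv_closed (hK : S.Grp K) (I : Submodule ℝ E) :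
    IsClosed {p : GLE E × E | p.1 ∈ K ∧ p.2 ∈ im p.1 I} := by
  have h1 : IsClosed {p : GLE E × E | p.1 ∈ (K : Set (GLE E))} :=
    hK.cpt.isClosed.preimage continuous_fst
  have hc : Continuous fun p : GLE E × E => ((p.1⁻¹ : GLE E) : E →L[ℝ] E) p.2 :=
    isBoundedBilinearMap_apply.continuous.comp
      ((Units.continuous_val.comp (continuous_inv.comp continuous_fst)).prodMk continuous_snd)
  have h2 : IsClosed {p : GLE E × E | ((p.1⁻¹ : GLE E) : E →L[ℝ] E) p.2 ∈ I} :=
    (Submodule.closed_of_finiteDimensional I).preimage hc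
  have h3 : {p : GLE E × E | p.1 ∈ K ∧ p.2 ∈ im p.1 I} =
      {p : GLE E × E | p.1 ∈ (K : Set (GLE E))} ∩
        {p : GLE E × E | ((p.1⁻¹ : GLE E) : E →L[ℝ] E) p.2 ∈ I} := by
    ext ⟨k, x⟩
    refine and_congr_right fun _ => ?_
    constructor
    · intro h
      obtain ⟨y, hy, h0⟩ := mem_im.1 h
      have h0' : (k : E →L[ℝ] E) y = x := h0
      show ((k⁻¹ : GLE E) : E →L[ℝ] E) x ∈ I
      rw [← h0', ← mul_apply_eq_comp, ← Units.val_mul, inv_mul_cancel, Units.val_one,
        one_apply_eq_self]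
      exact hy
    · intro h
      refine mem_im.2 ⟨_, h, ?_⟩
      show (k : E →L[ℝ] E) (((k⁻¹ : GLE E) : E →L[ℝ] E) x) = x
      rw [← mul_apply_eq_comp, ← Units.val_mul, mul_inv_cancel, Units.val_one,
        one_apply_eq_self]
  rw [h3]
  exact h1.inter h2

/-- the semisimple part of an ideal is preserved by the connected group -/
private theorem kinv_ss_im (hπ : S.DecM π) (hK : S.Grp K) {k : GLE E} (hk : k ∈ K)
    (j : Fin m) : im k (S.ss (LinearMap.range (π j))) = S.ss (LinearMap.range (π j)) := by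
  obtain ⟨u, hu, h⟩ := conj_family (S := S) (C := (K : Set (GLE E)))
    (N := fun k => im k (S.ss (LinearMap.range (π j))))
    (d := finrank ℝ (S.ss (LinearMap.range (π j)))) hK.cpt hK.conn
    (fun k hk => S.im_sub (hK.aut k hk) (S.ss_sub (kinv_sub hπ j)))
    (fun k _ => finrank_im k _)
    (fun k hk => by
      show S.cen (im k (S.ss (LinearMap.range (π j)))) = ⊥
      rw [S.im_cen (hK.aut k hk), S.ss_cen, im, Submodule.map_bot])
    (kinv_closed hK _) K.one_mem hk
  have h' : im k (S.ss (LinearMap.range (π j))) =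
      im u (im 1 (S.ss (LinearMap.range (π j)))) := h
  rw [h', im_one]
  exact S.inn_sub (fun x y z hz => kinv_ss hπ x y hz) hu

private theorem kinv_range (hπ : S.DecM π) (hK : S.Grp K)
    (hfix : ∀ k ∈ K, ∀ c ∈ S.cen ⊤, k.1 c = c) {k : GLE E} (hk : k ∈ K) (j : Fin m) {x : E}
    (hx : x ∈ LinearMap.range (π j)) : k.1 x ∈ LinearMap.range (π j) := by
  rw [← S.cen_sup_ss (LinearMap.range (π j))] at hx
  obtain ⟨c, hc, s, hs, rfl⟩ := Submodule.mem_sup.1 hx
  rw [map_add, hfix k hk c (kinv_cen hπ hc)]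
  refine Submodule.add_mem _ hc.1 ?_
  have h : k.1 s ∈ im k (S.ss (LinearMap.range (π j))) := mem_im.2 ⟨s, hs, rfl⟩
  rw [kinv_ss_im hπ hK hk j] at h
  exact h.1

theorem kinv (hπ : S.DecM π) (hK : S.Grp K) (hfix : ∀ k ∈ K, ∀ c ∈ S.cen ⊤, k.1 c = c)
    {k : GLE E} (hk : k ∈ K) (j : Fin m) (x : E) : π j (k.1 x) = k.1 (π j x) := by
  conv_lhs => rw [← hπ.sum x]
  rw [map_sum, map_sum]
  refine (Finset.sum_eq_single j (fun i _ hij => ?_)
    fun h => absurd (Finset.mem_univ j) h).trans ?_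
  · exact kinv_fix_ne hπ (Ne.symm hij) (kinv_range hπ hK hfix hk i ⟨x, rfl⟩)
  · exact kinv_fix hπ (kinv_range hπ hK hfix hk j ⟨x, rfl⟩)

end LTS

end Pool.Agent.MP417P
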