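import Pool.Agent.Lib.MP_417c68_gt_P.G.T2

/-!
# MP_417c68_gt, project P, module G/Multi: several ideals

`DecM S π`: `E` is the direct sum of the commuting ideals `range (π j)`.

PROOFS (text, section 7).
* `DecM.two`: `π j` and `id - π j` form a `Dec`: `com`: `T (π j x) (y - π j y)
  = ∑ i ≠ j, T (π j x) (π i y) = 0`; `hom₂`: `T x y z = ∑ i, T (π i x) (π i y) (π i z)` (mixed
  terms vanish by
  `com`, `com_T`).
* `multi_step`: `W` split at all `j ∈ s` (`W.map (π j) ≤ W`), `i ∉ s`.  `t2` for `π i`, `id - π i`: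
  `W' = W₁ ⊔ W₂`.  Split at `i`: `π i W' = W₁` (`π i` is the identity on `W₁ ≤ W.map (π i)` and `0`
  on `W₂`).  For
  `j ∈ s`: `π j W₁ = 0` and `π j W₂ ≤ π j (id - π i) W = π j W ≤ W ⊓ range (id - π i) ≤ W₂`.
  `W' ≤ perp (cen ⊤)` by `hom_perp` (`W₁ ≤ W.map (π i)`, `W ≤ perp (cen ⊤)` by `ctl_perp`), so `cen
  W' = ⊥` by
  `nc_cen` for the pair `(W', V)` (`Cp.symm`, `Cp.mono` for `Inn ≤ K`).  `W'` is a subtriple
  (`sub_sup`).
* `multi`: induction over the finset.
-/

noncomputable section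

namespace Pool.Agent.MP417P

open Module

namespace LTS

section alg

variable {E : Type} [AddCommGroup E] [Module ℝ E]

/-- a decomposition of `E` into commuting ideals, given by the projections -/
structure DecM (S : LTS E) {m : ℕ} (π : Fin m → E →ₗ[ℝ] E) : Prop where
  sum : ∀ x, ∑ j, π j x = x
  orth : ∀ i j x, π i (π j x) = if i = j then π j x else 0
  com : ∀ i j, i ≠ j → ∀ x y, S.T (π i x) (π j y) = 0
  hom : ∀ j, Hom S S (π j)

theorem DecM.two {S : LTS E} {m : ℕ} {π : Fin m → E →ₗ[ℝ] E} (h : S.DecM π) (j : Fin m) :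
    S.Dec (π j) (LinearMap.id - π j) := by
  have hq : ∀ x, (LinearMap.id - π j : E →ₗ[ℝ] E) x = x - π j x := fun x => rfl
  have hpp : ∀ x, π j (π j x) = π j x := fun x => by rw [h.orth, if_pos rfl]
  have hcom : ∀ x y, S.T (π j x) (y - π j y) = 0 := by
    intro x y
    have h1 : y - π j y = ∑ i ∈ Finset.univ.erase j, π i y := by
      rw [Finset.sum_erase_eq_sub (Finset.mem_univ j), h.sum]
    rw [h1, map_sum]
    refine Finset.sum_eq_zero fun i hi => ?_
    exact h.com j i (Finset.ne_of_mem_erase hi).symm x y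
  refine ⟨fun x => ?_, hpp, fun x => ?_, fun x y => ?_, h.hom j, fun x y z => ?_⟩
  · rw [hq, add_sub_cancel]
  · rw [hq, hq, map_sub, hpp, sub_self, sub_zero]
  · rw [hq]
    exact hcom x y
  · rw [hq, hq, hq, hq]
    have hj := h.hom j x y z
    have e1 : S.T x y z = S.T (π j x) (π j y) (π j z) +
        S.T (x - π j x) (y - π j y) (z - π j z) := by
      have a1 : S.T x y = S.T (π j x) (π j y) + S.T (x - π j x) (y - π j y) := by
        have b1 := hcom x y
        have b2 := S.T_symm (hcom y x)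
        have b3 : S.T x y = S.T (π j x + (x - π j x)) (π j y + (y - π j y)) := by
          rw [add_sub_cancel, add_sub_cancel]
        rw [b3, map_add, map_add S.T, LinearMap.add_apply, LinearMap.add_apply, b1, b2,
          add_zero, zero_add]
      have a2 : S.T (π j x) (π j y) z = S.T (π j x) (π j y) (π j z) := by
        have c1 := S.com_T (hcom x z) (hcom y z)
        have c2 : S.T (π j x) (π j y) z = S.T (π j x) (π j y) (π j z + (z - π j z)) := by
          rw [add_sub_cancel]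
        rw [c2, map_add, c1, add_zero]
      have a3 : S.T (x - π j x) (y - π j y) z = S.T (x - π j x) (y - π j y) (z - π j z) := by
        have c1 := S.com_T (S.T_symm (hcom z x)) (S.T_symm (hcom z y))
        have c2 : S.T (x - π j x) (y - π j y) z =
            S.T (x - π j x) (y - π j y) (π j z + (z - π j z)) := by
          rw [add_sub_cancel]
        rw [c2, map_add, c1, zero_add]
      rw [a1, LinearMap.add_apply, a2, a3]
    rw [hj]
    nth_rewrite 1 [e1]
    rw [add_sub_cancel_left]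

/-- `W` is the direct sum of its intersections with the ideals -/
def Spl {m : ℕ} (π : Fin m → E →ₗ[ℝ] E) (W : Submodule ℝ E) : Prop := ∀ j, W.map (π j) ≤ W

end alg

variable {E : Type} [NormedAddCommGroup E] [NormedSpace ℝ E] [FiniteDimensional ℝ E]
  {S : LTS E} {K : Subgroup (GLE E)} {V : Submodule ℝ E} {m : ℕ} {π : Fin m → E →ₗ[ℝ] E}

theorem multi_step (hπ : S.DecM π) (hK : S.Grp K) (hV : S.Sub V) {W : Submodule ℝ E}
    (hW : S.Sub W) (hc : S.cen W = ⊥) (h : Cp K V W) (s : Finset (Fin m)) {i : Fin m}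
    (hs : ∀ j ∈ s, W.map (π j) ≤ W) :
    ∃ W' : Submodule ℝ E, S.Sub W' ∧ S.cen W' = ⊥ ∧ Cp K V W' ∧
      ∀ j ∈ insert i s, W'.map (π j) ≤ W' := by
  classical
  by_cases hi : i ∈ s
  · refine ⟨W, hW, hc, h, fun j hj => ?_⟩
    rw [Finset.insert_eq_of_mem hi] at hj
    exact hs j hj
  have hd := hπ.two i
  obtain ⟨W₁, W₂, h1, h2, h3, h4, h5, h6, h7⟩ := t2 ⟨hd, hK, hV, hW, h, hc⟩
  have hm1 : ∀ x ∈ W₁, ∃ a ∈ W, π i a = x := fun x hx => Submodule.mem_map.1 (h4 hx)
  have hm2 : ∀ x ∈ W₂, ∃ a ∈ W, a - π i a = x := fun x hx => Submodule.mem_map.1 (h6 hx)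
  have hP := S.ctl_perp hW hc
  have hperp : W₁ ⊔ W₂ ≤ S.perp (S.cen ⊤) := by
    refine sup_le (fun x hx => ?_) fun x hx => ?_
    · obtain ⟨a, ha, rfl⟩ := hm1 x hx
      exact S.hom_perp hd.hom₁ (hP ha)
    · obtain ⟨a, ha, rfl⟩ := Submodule.mem_map.1 (h6 hx)
      exact S.hom_perp hd.hom₂ (hP ha)
  have hcen : S.cen (W₁ ⊔ W₂) = ⊥ := by
    have h8 := S.nc_cen (h7.symm.mono hK.inn)
    rw [← h8]
    refine le_antisymm (le_inf le_rfl ?_) inf_le_left
    exact le_trans (fun x hx => hx.1) hperp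
  refine ⟨W₁ ⊔ W₂, S.sub_sup h1 h2 ?_, hcen, h7, ?_⟩
  · intro x hx y hy
    obtain ⟨a, _, rfl⟩ := hm1 x hx
    obtain ⟨b, _, rfl⟩ := Submodule.mem_map.1 (h6 hy)
    exact hd.com a b
  · intro j hj
    rw [Submodule.map_sup]
    rcases Finset.mem_insert.1 hj with rfl | hj
    · refine sup_le_sup (fun x hx => ?_) (fun x hx => ?_)
      · obtain ⟨y, hy, rfl⟩ := Submodule.mem_map.1 hx
        obtain ⟨a, _, rfl⟩ := hm1 y hy
        rw [hπ.orth, if_pos rfl]
        exact hy
      · obtain ⟨y, hy, rfl⟩ := Submodule.mem_map.1 hx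
        obtain ⟨a, _, rfl⟩ := hm2 y hy
        rw [map_sub, hπ.orth, if_pos rfl, sub_self]
        exact Submodule.zero_mem _
    · have hji : j ≠ i := fun hji => hi (hji ▸ hj)
      refine sup_le_sup (fun x hx => ?_) (fun x hx => ?_)
      · obtain ⟨y, hy, rfl⟩ := Submodule.mem_map.1 hx
        obtain ⟨a, _, rfl⟩ := hm1 y hy
        rw [hπ.orth, if_neg hji]
        exact Submodule.zero_mem _
      · obtain ⟨y, hy, rfl⟩ := Submodule.mem_map.1 hx
        obtain ⟨a, ha, rfl⟩ := hm2 y hy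
        rw [map_sub, hπ.orth, if_neg hji, sub_zero]
        refine h5 ⟨hs j hj (Submodule.mem_map_of_mem ha), ⟨π j a, ?_⟩⟩
        change π j a - π i (π j a) = π j a
        rw [hπ.orth, if_neg hji.symm, sub_zero]

theorem multi (hπ : S.DecM π) (hK : S.Grp K) (hV : S.Sub V) {W : Submodule ℝ E}
    (hW : S.Sub W) (hc : S.cen W = ⊥) (h : Cp K V W) :
    ∃ W' : Submodule ℝ E, S.Sub W' ∧ S.cen W' = ⊥ ∧ Cp K V W' ∧ Spl π W' := by
  classical
  have key : ∀ s : Finset (Fin m), ∃ W' : Submodule ℝ E, S.Sub W' ∧ S.cen W' = ⊥ ∧ Cp K V W' ∧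
      ∀ j ∈ s, W'.map (π j) ≤ W' := by
    intro s
    induction s using Finset.induction_on with
    | empty => exact ⟨W, hW, hc, h, fun j hj => absurd hj (Finset.notMem_empty j)⟩
    | insert i s _ ih =>
      obtain ⟨W', a1, a2, a3, a4⟩ := ih
      exact multi_step hπ hK hV a1 a2 a3 s a4
  obtain ⟨W', a1, a2, a3, a4⟩ := key Finset.univ
  exact ⟨W', a1, a2, a3, fun j => a4 j (Finset.mem_univ j)⟩

end LTS

end Pool.Agent.MP417P
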