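import Pool.Agent.Lib.MP_417c68_gt_P.F.ClaimC

/-!
# MP_417c68_gt, project P, module G/T2: two ideals

PROOF (text, section 6).  `U = S.lk π₁ π₂ W`, `S' = S.res U`.  `Dgl S' (N(1))` (`lk_cen`, `cen_res`,
`NN_sub`, `NN_finrank`, `NN_diag`); `claimC` gives `D₁`, `D₂ ≤ U`.
`W₁ = (W ⊓ range π₁) ⊔ (D₁.map U.subtype).map π₁`, `W₂` in the same way with `D₂`, `π₂`.
* subtriples: `sub_sup` (`proj_com`), `sub_map` (`hom₁`).
* `W₁ ≤ W.map π₁`: for `w ∈ W ∩ range π₁` `w = π₁ w`.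
* dimension: `π₁` is injective on `U` and `π₁ U ∩ W = 0` (`pi1_inj`), so
  `dim W₁ = dim (W ⊓ range π₁) + dim D₁`; `W₁ ⊓ W₂ = ⊥` (`Dec.inf`), so
  `dim (W₁ ⊔ W₂) = dim W0 + dim D₁ + dim D₂ = dim W0 + dim U = dim W` (`finrank_lk`; `W0` is a
  direct sum).
* `Cp.disj`: `x = k (w₁ + π₁ d + w₂ + π₂ d')` with `x ∈ V`: `ff (d, d') + (w₁ + w₂) = k⁻¹ x`, so
  `(d, d') ∈ N(k⁻¹)`, `Arr S' N(1) d d'` (`Hyp.arr`); a chain with `n = 0`, so `d = d' = 0`; then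
  `x = k (w₁ + w₂)`, `x = 0` by `h.cp`.
-/

noncomputable section

namespace Pool.Agent.MP417P

open Module

namespace LTS

variable {E : Type} [NormedAddCommGroup E] [NormedSpace ℝ E] [FiniteDimensional ℝ E]
  {S : LTS E} {K : Subgroup (GLE E)} {π₁ π₂ : E →ₗ[ℝ] E} {V W : Submodule ℝ E}

theorem Hyp.dgl (h : Hyp S K π₁ π₂ V W) :
    Dgl (S.res _ (h.dec.lk_sub h.hW)) (NN π₁ π₂ V W (S.lk π₁ π₂ W) 1) :=
  ⟨cen_res _ _ (h.dec.lk_cen h.hW h.cen), h.NN_sub K.one_mem, h.NN_finrank K.one_mem,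
    fun _ hu _ hx => h.NN_diag K.one_mem hu hx⟩

private theorem t2_side (h : S.Dec π₁ π₂) (hW : S.Sub W) {D : Submodule ℝ E} (hD : S.Sub D)
    (hDU : D ≤ S.lk π₁ π₂ W) :
    S.Sub ((W ⊓ LinearMap.range π₁) ⊔ D.map π₁) ∧
      (W ⊓ LinearMap.range π₁) ⊔ D.map π₁ ≤ W.map π₁ ∧
      finrank ℝ ((W ⊓ LinearMap.range π₁) ⊔ D.map π₁ : Submodule ℝ E) =
        finrank ℝ (W ⊓ LinearMap.range π₁ : Submodule ℝ E) + finrank ℝ D := by
  refine ⟨?_, ?_, ?_⟩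
  · refine S.sub_sup (S.sub_inf hW ?_) (S.sub_map h.hom₁ hD) ?_
    · rw [LinearMap.range_eq_map]
      exact S.sub_map h.hom₁ S.sub_top
    · rintro x hx _ ⟨d, hd, rfl⟩
      exact S.T_symm (h.proj_com hW (hDU hd) (Submodule.mem_sup_left hx)).1
  · refine sup_le ?_ (Submodule.map_mono (hDU.trans inf_le_left))
    rintro x ⟨hx, hx1⟩
    exact ⟨x, hx, h.mem₁.1 hx1⟩
  · have h1 : (W ⊓ LinearMap.range π₁) ⊓ D.map π₁ = ⊥ := by
      rw [eq_bot_iff]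
      rintro _ ⟨⟨hx, -⟩, d, hd, rfl⟩
      rw [Submodule.mem_bot, h.pi1_inj (hDU hd) hx, map_zero]
    have h2 : finrank ℝ (D.map π₁) = finrank ℝ D := by
      have h3 : D.map π₁ = LinearMap.range (π₁.comp D.subtype) := by
        rw [LinearMap.range_comp, Submodule.range_subtype]
      rw [h3]
      refine LinearMap.finrank_range_of_inj ((injective_iff_map_eq_zero _).2 fun d hd => ?_)
      refine Subtype.ext (h.pi1_inj (hDU d.2) ?_)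
      have h4 : π₁ d.1 = 0 := hd
      rw [h4]
      exact W.zero_mem
    have h5 := Submodule.finrank_sup_add_finrank_inf_eq (W ⊓ LinearMap.range π₁) (D.map π₁)
    rw [h1, finrank_bot, add_zero, h2] at h5
    exact h5

private theorem t2_lk_swap (S : LTS E) (W : Submodule ℝ E) : S.lk π₂ π₁ W = S.lk π₁ π₂ W := by
  have h1 : W0 π₂ π₁ W = W0 π₁ π₂ W := sup_comm _ _
  unfold lk
  rw [h1]

private theorem t2_disj (h : S.Dec π₁ π₂) {A B : Submodule ℝ E} (hA : A ≤ LinearMap.range π₁)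
    (hB : B ≤ LinearMap.range π₂) :
    finrank ℝ (A ⊔ B : Submodule ℝ E) = finrank ℝ A + finrank ℝ B := by
  have h1 : A ⊓ B = ⊥ := by
    rw [eq_bot_iff, ← h.inf]
    exact inf_le_inf hA hB
  have h5 := Submodule.finrank_sup_add_finrank_inf_eq A B
  rw [h1, finrank_bot, add_zero] at h5
  exact h5

theorem t2 (h : Hyp S K π₁ π₂ V W) : ∃ W₁ W₂ : Submodule ℝ E, S.Sub W₁ ∧ S.Sub W₂ ∧
    W ⊓ LinearMap.range π₁ ≤ W₁ ∧ W₁ ≤ W.map π₁ ∧ W ⊓ LinearMap.range π₂ ≤ W₂ ∧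
    W₂ ≤ W.map π₂ ∧ Cp K V (W₁ ⊔ W₂) := by
  obtain ⟨D₁, D₂, hD₁, hD₂, hdim, hchn⟩ := claimC _ (S.lk π₁ π₂ W)
    (S.res _ (h.dec.lk_sub h.hW)) (NN π₁ π₂ V W (S.lk π₁ π₂ W) 1) rfl h.dgl
  have hsub : ∀ {D : Submodule ℝ (S.lk π₁ π₂ W)},
      (S.res _ (h.dec.lk_sub h.hW)).Sub D → S.Sub (D.map (S.lk π₁ π₂ W).subtype) := by
    intro D hD
    exact S.sub_map (S' := S.res _ (h.dec.lk_sub h.hW)) (fun _ _ _ => rfl) hD
  have hle : ∀ D : Submodule ℝ (S.lk π₁ π₂ W),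
      D.map (S.lk π₁ π₂ W).subtype ≤ S.lk π₁ π₂ W := fun D => Submodule.map_subtype_le _ D
  obtain ⟨a1, a2, a3⟩ := t2_side h.dec h.hW (hsub hD₁) (hle D₁)
  obtain ⟨b1, b2, b3⟩ := t2_side h.dec.swap h.hW (hsub hD₂) ((hle D₂).trans (t2_lk_swap S W).ge)
  rw [Submodule.finrank_map_subtype_eq] at a3 b3
  refine ⟨_, _, a1, b1, le_sup_left, a2, le_sup_left, b2, fun k hk x hx y hy hxy => ?_, ?_⟩
  · obtain ⟨y₁, hy₁, y₂, hy₂, rfl⟩ := Submodule.mem_sup.1 hy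
    obtain ⟨w₁, hw₁, _, ⟨_, ⟨d₁, hd₁, rfl⟩, rfl⟩, rfl⟩ := Submodule.mem_sup.1 hy₁
    obtain ⟨w₂, hw₂, _, ⟨_, ⟨d₂, hd₂, rfl⟩, rfl⟩, rfl⟩ := Submodule.mem_sup.1 hy₂
    have hw : w₁ + w₂ ∈ W0 π₁ π₂ W := Submodule.add_mem_sup hw₁ hw₂
    have h1 : (d₁, d₂) ∈ NN π₁ π₂ V W (S.lk π₁ π₂ W) k⁻¹ := by
      refine mem_NN.2 ⟨w₁ + w₂, hw, x, hx, ?_⟩
      rw [hxy]
      have h2 : ∀ z : E, k⁻¹.1 (k.1 z) = z := fun z => by
        have h3 : k⁻¹.1 (k.1 z) = (k⁻¹ * k).1 z := rfl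
        rw [h3, inv_mul_cancel]
        rfl
      rw [h2, ff_apply]
      simp only [Submodule.coe_subtype]
      abel
    have h2 := h.arr (K.inv_mem hk) h1
    have h3 := hchn 0 (fun i => if i = 0 then d₁ else d₂) (by simpa using hd₁)
      (by simpa using hd₂) (fun i hi => by
        obtain rfl : i = 0 := Nat.le_zero.1 hi
        simpa using h2)
    have h4 : d₁ = 0 := by simpa using h3 0 (by omega)
    have h5 : d₂ = 0 := by simpa using h3 1 (by omega)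
    subst h4 h5
    refine h.cp.disj k hk x hx (w₁ + w₂) (Dec.W0_le hw) ?_
    rw [hxy]
    simp
  · have e1 := t2_disj h.dec (a2.trans LinearMap.map_le_range) (b2.trans LinearMap.map_le_range)
    have e2 : finrank ℝ (W0 π₁ π₂ W) = finrank ℝ (W ⊓ LinearMap.range π₁ : Submodule ℝ E) +
        finrank ℝ (W ⊓ LinearMap.range π₂ : Submodule ℝ E) :=
      t2_disj h.dec inf_le_right inf_le_right
    have e3 := h.dec.finrank_lk (W := W)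
    have e4 := h.cp.dim
    rw [e1, a3, b3]
    omega

end LTS

end Pool.Agent.MP417P
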